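import Pool.Agent.N566.VV.Defs

/-!
# Project VV: slides of the coloured Jones data
-/

set_option autoImplicit false

namespace Pool.Agent.N81.VV

open Pool.Agent.N566.VV
open Pool.Agent.H550R3.Jones (br brf Adm crossP crossN)
open Finset

theorem brf_ne {N : ℕ} {v : ℂ} (hv : Adm N v) {j : ℕ} (hj : j < N) : brf v j ≠ 0 := by
  unfold brf
  rw [Finset.prod_ne_zero_iff]
  intro i hi
  have hi' := Finset.mem_range.mp hi
  have := hv.2 (i + 1) (by omega) (by omega)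
  push_cast at this
  exact this

theorem brf_add (v : ℂ) (t n : ℕ) :
    brf v (t + n) = brf v t * ∏ j ∈ range n, br v ((t : ℤ) + 1 + j) := by
  unfold brf
  rw [Finset.prod_range_add]
  congr 1
  refine Finset.prod_congr rfl fun j _ => ?_
  congr 1
  push_cast
  ring

/-- closed form of the positive crossing -/
theorem crossP_eq {N : ℕ} {v : ℂ} (hv : Adm N v) (p q : Fin N × Fin N) (n s t : ℕ)
    (h1 : (p.1 : ℕ) = q.2 + n) (h2 : (q.1 : ℕ) = p.2 + n) (h3 : (p.2 : ℕ) + s + 1 = N)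
    (h4 : (q.1 : ℕ) + t + 1 = N) :
    crossP N v p q = v ^ (-((N : ℤ) - 1) * (1 + (q.1 : ℕ) + (q.2 : ℕ)) +
      2 * (p.1 : ℕ) * (p.2 : ℕ) + ((n * (n - 1) / 2 : ℕ) : ℤ)) *
      (brf v p.1 * brf v s / (brf v q.2 * brf v n * brf v t)) := by
  have hc : (p.1 : ℕ) + p.2 = q.1 + q.2 ∧ (q.2 : ℕ) ≤ p.1 := ⟨by omega, by omega⟩
  have e : (p.1 : ℕ) - q.2 = n := by omega
  have hst : s = t + n := by omega
  have hN : (N : ℤ) - (q.1 : ℕ) = (t : ℤ) + 1 := by omega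
  have ht : brf v t ≠ 0 := brf_ne hv (by omega)
  have hq : brf v q.2 ≠ 0 := brf_ne hv q.2.isLt
  have hn : brf v n ≠ 0 := brf_ne hv (by have := p.1.isLt; omega)
  simp only [crossP, if_pos hc, e]
  rw [hst, brf_add, hN, zpow_add₀ hv.1 (-((N : ℤ) - 1) * (1 + (q.1 : ℕ) + (q.2 : ℕ)) +
      2 * (p.1 : ℕ) * (p.2 : ℕ)) ((n * (n - 1) / 2 : ℕ) : ℤ), zpow_natCast]
  field_simp

/-- closed form of the negative crossing -/
theorem crossN_eq {N : ℕ} {v : ℂ} (hv : Adm N v) (p q : Fin N × Fin N) (n s t : ℕ)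
    (h1 : (p.2 : ℕ) = q.1 + n) (h2 : (q.2 : ℕ) = p.1 + n) (h3 : (p.1 : ℕ) + s + 1 = N)
    (h4 : (q.2 : ℕ) + t + 1 = N) :
    crossN N v p q = (-1) ^ n * v ^ (((N : ℤ) - 1) * (1 + (q.1 : ℕ) + (q.2 : ℕ)) -
      2 * (q.1 : ℕ) * (q.2 : ℕ) + (-((n * (n - 1) / 2 : ℕ) : ℤ))) *
      (brf v p.2 * brf v s / (brf v q.1 * brf v n * brf v t)) := by
  have hc : (p.1 : ℕ) + p.2 = q.1 + q.2 ∧ (q.1 : ℕ) ≤ p.2 := ⟨by omega, by omega⟩
  have e : (p.2 : ℕ) - q.1 = n := by omega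
  have hst : s = t + n := by omega
  have hN : (N : ℤ) - (q.2 : ℕ) = (t : ℤ) + 1 := by omega
  have ht : brf v t ≠ 0 := brf_ne hv (by omega)
  have hq : brf v q.1 ≠ 0 := brf_ne hv q.1.isLt
  have hn : brf v n ≠ 0 := brf_ne hv (by have := p.2.isLt; omega)
  have hv0 := hv.1
  simp only [crossN, if_pos hc, e]
  rw [hst, brf_add, hN, zpow_add₀ hv.1 (((N : ℤ) - 1) * (1 + (q.1 : ℕ) + (q.2 : ℕ)) -
      2 * (q.1 : ℕ) * (q.2 : ℕ)) (-((n * (n - 1) / 2 : ℕ) : ℤ)), zpow_neg, zpow_natCast]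
  field_simp

theorem tri (n : ℕ) : 2 * ((n * (n - 1) / 2 : ℕ) : ℤ) = (n : ℤ) * n - n := by
  have h : 2 * (n * (n - 1) / 2) = n * (n - 1) := by
    rcases Nat.even_or_odd n with h | h
    · obtain ⟨k, rfl⟩ := h
      exact Nat.mul_div_cancel' ⟨k * (k + k - 1), by ring⟩
    · obtain ⟨k, rfl⟩ := h
      exact Nat.mul_div_cancel' ⟨(2 * k + 1) * k, by simp; ring⟩
  rcases n with _ | n
  · simp
  · rw [Nat.add_sub_cancel] at h ⊢
    have h' : ((2 * ((n + 1) * n / 2) : ℕ) : ℤ) = (((n + 1) * n : ℕ) : ℤ) := by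
      rw [h]
    push_cast at h' ⊢
    rw [h']
    ring

theorem frN {N r : ℕ} (h : N = 2 * r + 1) : fr N = 2 * (r : ℤ) * (r + 1) := by
  subst h
  unfold fr
  push_cast
  have : ((2 * (r : ℤ) + 1) ^ 2 - 1) = 2 * (2 * (r : ℤ) * (r + 1)) := by ring
  rw [this, Int.mul_ediv_cancel_left _ (by norm_num)]

theorem sgn_inv (n : ℕ) : ((-1 : ℂ) ^ n)⁻¹ = (-1) ^ n := by
  rcases neg_one_pow_eq_or ℂ n with h | h <;> rw [h] <;> norm_num

/-- the common form of both sides -/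
theorem form {v : ℂ} (hv : v ≠ 0) (s1 s2 : ℕ) (e1 e2 e3 f1 f2 f3 : ℤ) (X Y X' Y' : ℂ)
    (hs : (-1 : ℂ) ^ s1 = (-1) ^ s2) (he : -e1 + e2 + e3 = -f1 + f2 + f3)
    (hXY : X⁻¹ * Y = X'⁻¹ * Y') :
    ((-1) ^ s1 * X * v ^ e1)⁻¹ * (v ^ e2 * (v ^ e3 * Y)) =
      ((-1) ^ s2 * X' * v ^ f1)⁻¹ * (v ^ f2 * (v ^ f3 * Y')) := by
  have h1 : (v ^ e1)⁻¹ * v ^ e2 * v ^ e3 = (v ^ f1)⁻¹ * v ^ f2 * v ^ f3 := by
    rw [← zpow_neg, ← zpow_neg, ← zpow_add₀ hv, ← zpow_add₀ hv, ← zpow_add₀ hv, ← zpow_add₀ hv, he]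
  rw [mul_inv, mul_inv, mul_inv, mul_inv, sgn_inv, sgn_inv, hs]
  calc (-1) ^ s2 * X⁻¹ * (v ^ e1)⁻¹ * (v ^ e2 * (v ^ e3 * Y))
      = (-1) ^ s2 * (X⁻¹ * Y) * ((v ^ e1)⁻¹ * v ^ e2 * v ^ e3) := by ring
    _ = (-1) ^ s2 * (X'⁻¹ * Y') * ((v ^ f1)⁻¹ * v ^ f2 * v ^ f3) := by rw [hXY, h1]
    _ = _ := by ring

theorem formA {v : ℂ} (hv : v ≠ 0) (s1 s2 n : ℕ) (e1 e2 e3 f1 f2 f3 : ℤ) (X Y X' Y' : ℂ)
    (hs : s1 = s2 + n) (he : -e1 + e2 + e3 = -f1 + f2 + f3)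
    (hXY : X⁻¹ * Y = X'⁻¹ * Y') :
    ((-1) ^ s1 * X * v ^ e1)⁻¹ * (v ^ e2 * (v ^ e3 * Y)) =
      ((-1) ^ s2 * X' * v ^ f1)⁻¹ * (v ^ f2 * ((-1) ^ n * v ^ f3 * Y')) := by
  rw [form hv s1 (s2 + n) e1 e2 e3 f1 f2 f3 X Y X' Y' (by rw [hs]) he hXY]
  rw [mul_inv, mul_inv, mul_inv, mul_inv, sgn_inv, sgn_inv, pow_add]
  ring

theorem formB {v : ℂ} (hv : v ≠ 0) (s1 s2 n : ℕ) (e1 e2 e3 f1 f2 f3 : ℤ) (X Y X' Y' : ℂ)
    (hs : (-1 : ℂ) ^ s1 = (-1) ^ (s2 + n)) (he : e1 + e2 + e3 = f1 + f2 + f3)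
    (hXY : X * Y = X' * Y') :
    ((-1) ^ s1 * X * v ^ e1) * (v ^ e2 * (v ^ e3 * Y)) =
      ((-1) ^ s2 * X' * v ^ f1) * (v ^ f2 * ((-1) ^ n * v ^ f3 * Y')) := by
  have h1 : v ^ e1 * v ^ e2 * v ^ e3 = v ^ f1 * v ^ f2 * v ^ f3 := by
    rw [← zpow_add₀ hv, ← zpow_add₀ hv, ← zpow_add₀ hv, ← zpow_add₀ hv, he]
  calc ((-1) ^ s1 * X * v ^ e1) * (v ^ e2 * (v ^ e3 * Y))
      = (-1) ^ s1 * (X * Y) * (v ^ e1 * v ^ e2 * v ^ e3) := by ring
    _ = (-1) ^ (s2 + n) * (X' * Y') * (v ^ f1 * v ^ f2 * v ^ f3) := by rw [hXY, h1, hs]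
    _ = _ := by rw [pow_add]; ring

theorem sgn_add_two (a n : ℕ) : (-1 : ℂ) ^ (a + n + n) = (-1) ^ a := by
  rw [add_assoc, pow_add, ← two_mul, pow_mul]
  norm_num

theorem crossP_zero {N : ℕ} {v : ℂ} (p q : Fin N × Fin N)
    (h : ¬((p.1 : ℕ) + p.2 = q.1 + q.2 ∧ (q.2 : ℕ) ≤ p.1)) : crossP N v p q = 0 := by
  simp only [crossP, if_neg h]

theorem crossN_zero {N : ℕ} {v : ℂ} (p q : Fin N × Fin N)
    (h : ¬((p.1 : ℕ) + p.2 = q.1 + q.2 ∧ (q.1 : ℕ) ≤ p.2)) : crossN N v p q = 0 := by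
  simp only [crossN, if_neg h]

theorem ex1 (N x z n a x' z' y F T : ℤ) (h1 : x' = z + n) (_h2 : z' = x + n) (h3 : y = a + n)
    (h4 : N = x + z + n + 1) (hF : 2 * F = (N - 1) * (N + 1)) (hT : 2 * T = n * n - n) :
    -(x' * (N - 2 - x')) + F + (-(N - 1) * (1 + y + z) + 2 * x' * a + T) =
      -(z * (N - 2 - z)) + -F + ((N - 1) * (1 + x + y) - 2 * x * y + -T) := by
  subst h1 h3 h4
  linear_combination hF + hT

theorem ex2 (N x z n a x' z' y F T : ℤ) (h1 : x = z' + n) (h2 : z = x' + n) (h3 : a = y + n)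
    (h4 : N = x' + z' + n + 1) (hF : 2 * F = (N - 1) * (N + 1)) (hT : 2 * T = n * n - n) :
    -(x' * (N - 2 - x')) + -F + ((N - 1) * (1 + y + z) - 2 * y * z + -T) =
      -(z * (N - 2 - z)) + F + (-(N - 1) * (1 + x + y) + 2 * a * z' + T) := by
  subst h1 h2 h3 h4
  linear_combination -hF - hT

theorem ex3 (N a b e x n a' e' F T : ℤ) (h1 : b = x + n) (h2 : a' = e + n) (h3 : e' = a + n)
    (h4 : N = a + e + n + 1) (hF : 2 * F = (N - 1) * (N + 1)) (hT : 2 * T = n * n - n) :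
    a * (N - 2 - a) + F + (-(N - 1) * (1 + a' + x) + 2 * b * e + T) =
      e' * (N - 2 - e') + -F + ((N - 1) * (1 + x + e') - 2 * x * e' + -T) := by
  subst h1 h2 h3 h4
  linear_combination hF + hT

theorem ex4 (N a b e x n a' e' F T : ℤ) (h1 : e = a' + n) (h2 : x = b + n) (h3 : a = e' + n)
    (h4 : N = a' + e' + n + 1) (hF : 2 * F = (N - 1) * (N + 1)) (hT : 2 * T = n * n - n) :
    a * (N - 2 - a) + -F + ((N - 1) * (1 + a' + x) - 2 * a' * x + -T) =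
      e' * (N - 2 - e') + F + (-(N - 1) * (1 + x + e') + 2 * a * b + T) := by
  subst h1 h2 h3 h4
  linear_combination -hF - hT

theorem two_fr {N : ℕ} (hN : Odd N) : 2 * fr N = ((N : ℤ) - 1) * ((N : ℤ) + 1) := by
  obtain ⟨r, hr⟩ := hN
  rw [frN hr, hr]
  push_cast
  ring

theorem id1 {N : ℕ} {v : ℂ} (hN : Odd N) (hv : Adm N v) (a x y z : Fin N) :
    (kap N v ((Fin.rev x : Fin N) : ℕ))⁻¹ * (v ^ fr N * crossP N v (Fin.rev x, a) (y, z)) =
      (kap N v (z : ℕ))⁻¹ * (v ^ (-fr N) * crossN N v (a, Fin.rev z) (x, y)) := by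
  have hx := Fin.val_rev x
  have hz := Fin.val_rev z
  have hxl := x.isLt
  have hyl := y.isLt
  have hzl := z.isLt
  have hal := a.isLt
  by_cases hc : (a : ℕ) + (N - 1) = x + y + z ∧ (x : ℕ) + z ≤ N - 1
  · obtain ⟨n, hn⟩ : ∃ n, (x : ℕ) + z + n + 1 = N := ⟨N - 1 - x - z, by omega⟩
    rw [crossP_eq hv (Fin.rev x, a) (y, z) n (N - 1 - a) (N - 1 - y)
        (by show ((Fin.rev x : Fin N) : ℕ) = z + n; omega)
        (by show (y : ℕ) = a + n; omega) (by show (a : ℕ) + _ + 1 = N; omega)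
        (by show (y : ℕ) + _ + 1 = N; omega),
      crossN_eq hv (a, Fin.rev z) (x, y) n (N - 1 - a) (N - 1 - y)
        (by show ((Fin.rev z : Fin N) : ℕ) = x + n; omega)
        (by show (y : ℕ) = a + n; omega) (by show (a : ℕ) + _ + 1 = N; omega)
        (by show (y : ℕ) + _ + 1 = N; omega)]
    refine formA hv.1 _ _ n _ _ _ _ _ _ _ _ _ _ (by omega)
      (ex1 N x z n a ((Fin.rev x : Fin N) : ℕ) ((Fin.rev z : Fin N) : ℕ) y (fr N) _
        (by omega) (by omega) (by omega) (by omega) (two_fr hN) (tri n)) ?_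
    have e1 : N - 1 - ((Fin.rev x : Fin N) : ℕ) = x := by omega
    have e2 : N - 1 - (z : ℕ) = ((Fin.rev z : Fin N) : ℕ) := by omega
    have b1 : brf v x ≠ 0 := brf_ne hv (by omega)
    have b2 : brf v z ≠ 0 := brf_ne hv (by omega)
    have b3 : brf v n ≠ 0 := brf_ne hv (by omega)
    have b4 : brf v (N - 1) ≠ 0 := brf_ne hv (by omega)
    have b5 : brf v (N - 1 - y) ≠ 0 := brf_ne hv (by omega)
    have b6 : brf v ((Fin.rev x : Fin N) : ℕ) ≠ 0 := brf_ne hv (by omega)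
    have b7 : brf v ((Fin.rev z : Fin N) : ℕ) ≠ 0 := brf_ne hv (by omega)
    rw [e1, e2]
    field_simp
  · rw [crossP_zero _ _ (by
        show ¬(((Fin.rev x : Fin N) : ℕ) + a = y + z ∧ (z : ℕ) ≤ ((Fin.rev x : Fin N) : ℕ))
        omega), crossN_zero _ _ (by
        show ¬((a : ℕ) + ((Fin.rev z : Fin N) : ℕ) = x + y ∧ (x : ℕ) ≤ ((Fin.rev z : Fin N) : ℕ))
        omega)]
    simp

theorem id2 {N : ℕ} {v : ℂ} (hN : Odd N) (hv : Adm N v) (a x y z : Fin N) :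
    (kap N v ((Fin.rev x : Fin N) : ℕ))⁻¹ * (v ^ (-fr N) * crossN N v (Fin.rev x, a) (y, z)) =
      (kap N v (z : ℕ))⁻¹ * (v ^ fr N * crossP N v (a, Fin.rev z) (x, y)) := by
  have hx := Fin.val_rev x
  have hz := Fin.val_rev z
  have hxl := x.isLt
  have hyl := y.isLt
  have hzl := z.isLt
  have hal := a.isLt
  by_cases hc : (a : ℕ) + (N - 1) = x + y + z ∧ N - 1 ≤ (x : ℕ) + z
  · obtain ⟨n, hn⟩ : ∃ n, (x : ℕ) + z + 1 = N + n := ⟨x + z + 1 - N, by omega⟩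
    rw [crossP_eq hv (a, Fin.rev z) (x, y) n z ((Fin.rev x : Fin N) : ℕ)
        (by show (a : ℕ) = y + n; omega)
        (by show (x : ℕ) = ((Fin.rev z : Fin N) : ℕ) + n; omega)
        (by show ((Fin.rev z : Fin N) : ℕ) + _ + 1 = N; omega)
        (by show (x : ℕ) + _ + 1 = N; omega),
      crossN_eq hv (Fin.rev x, a) (y, z) n x ((Fin.rev z : Fin N) : ℕ)
        (by show (a : ℕ) = y + n; omega)
        (by show (z : ℕ) = ((Fin.rev x : Fin N) : ℕ) + n; omega)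
        (by show ((Fin.rev x : Fin N) : ℕ) + _ + 1 = N; omega)
        (by show (z : ℕ) + _ + 1 = N; omega)]
    refine (formA hv.1 _ _ n _ _ _ _ _ _ _ _ _ _ (by omega)
      (ex2 N x z n a ((Fin.rev x : Fin N) : ℕ) ((Fin.rev z : Fin N) : ℕ) y (fr N) _
        (by omega) (by omega) (by omega) (by omega) (two_fr hN) (tri n)).symm ?_).symm
    have e1 : N - 1 - ((Fin.rev x : Fin N) : ℕ) = x := by omega
    have e2 : N - 1 - (z : ℕ) = ((Fin.rev z : Fin N) : ℕ) := by omega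
    have b1 : brf v x ≠ 0 := brf_ne hv (by omega)
    have b2 : brf v z ≠ 0 := brf_ne hv (by omega)
    have b3 : brf v n ≠ 0 := brf_ne hv (by omega)
    have b4 : brf v (N - 1) ≠ 0 := brf_ne hv (by omega)
    have b5 : brf v y ≠ 0 := brf_ne hv (by omega)
    have b6 : brf v ((Fin.rev x : Fin N) : ℕ) ≠ 0 := brf_ne hv (by omega)
    have b7 : brf v ((Fin.rev z : Fin N) : ℕ) ≠ 0 := brf_ne hv (by omega)
    rw [e1, e2]
    field_simp
  · rw [crossP_zero _ _ (by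
        show ¬((a : ℕ) + ((Fin.rev z : Fin N) : ℕ) = x + y ∧ (y : ℕ) ≤ a)
        omega), crossN_zero _ _ (by
        show ¬(((Fin.rev x : Fin N) : ℕ) + a = y + z ∧ (y : ℕ) ≤ a)
        omega)]
    simp

theorem id3 {N : ℕ} {v : ℂ} (hN : Odd N) (hv : Adm N v) (a b e x : Fin N) :
    kap N v (a : ℕ) * (v ^ fr N * crossP N v (b, e) (Fin.rev a, x)) =
      kap N v ((Fin.rev e : Fin N) : ℕ) * (v ^ (-fr N) * crossN N v (a, b) (x, Fin.rev e)) := by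
  have ha := Fin.val_rev a
  have he := Fin.val_rev e
  have hxl := x.isLt
  have hbl := b.isLt
  have hel := e.isLt
  have hal := a.isLt
  by_cases hc : (a : ℕ) + b + e = x + (N - 1) ∧ (x : ℕ) ≤ b
  · obtain ⟨n, hn⟩ : ∃ n, (b : ℕ) = x + n := ⟨b - x, by omega⟩
    rw [crossP_eq hv (b, e) (Fin.rev a, x) n ((Fin.rev e : Fin N) : ℕ) a
        (by show (b : ℕ) = x + n; omega)
        (by show ((Fin.rev a : Fin N) : ℕ) = e + n; omega)
        (by show (e : ℕ) + _ + 1 = N; omega)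
        (by show ((Fin.rev a : Fin N) : ℕ) + _ + 1 = N; omega),
      crossN_eq hv (a, b) (x, Fin.rev e) n ((Fin.rev a : Fin N) : ℕ) e
        (by show (b : ℕ) = x + n; omega)
        (by show ((Fin.rev e : Fin N) : ℕ) = a + n; omega)
        (by show (a : ℕ) + _ + 1 = N; omega)
        (by show ((Fin.rev e : Fin N) : ℕ) + _ + 1 = N; omega)]
    refine formB hv.1 _ _ n _ _ _ _ _ _ _ _ _ _
      (by rw [show ((Fin.rev e : Fin N) : ℕ) = a + n by omega, sgn_add_two])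
      (ex3 N a b e x n ((Fin.rev a : Fin N) : ℕ) ((Fin.rev e : Fin N) : ℕ) (fr N) _
        (by omega) (by omega) (by omega) (by omega) (two_fr hN) (tri n)) ?_
    have e1 : N - 1 - ((Fin.rev e : Fin N) : ℕ) = e := by omega
    have e2 : N - 1 - (a : ℕ) = ((Fin.rev a : Fin N) : ℕ) := by omega
    have b1 : brf v x ≠ 0 := brf_ne hv (by omega)
    have b2 : brf v a ≠ 0 := brf_ne hv (by omega)
    have b3 : brf v n ≠ 0 := brf_ne hv (by omega)
    have b4 : brf v (N - 1) ≠ 0 := brf_ne hv (by omega)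
    have b5 : brf v e ≠ 0 := brf_ne hv (by omega)
    rw [e1, e2]
    field_simp
  · rw [crossP_zero _ _ (by
        show ¬((b : ℕ) + e = ((Fin.rev a : Fin N) : ℕ) + x ∧ (x : ℕ) ≤ b)
        omega), crossN_zero _ _ (by
        show ¬((a : ℕ) + b = x + ((Fin.rev e : Fin N) : ℕ) ∧ (x : ℕ) ≤ b)
        omega)]
    simp

theorem id4 {N : ℕ} {v : ℂ} (hN : Odd N) (hv : Adm N v) (a b e x : Fin N) :
    kap N v (a : ℕ) * (v ^ (-fr N) * crossN N v (b, e) (Fin.rev a, x)) =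
      kap N v ((Fin.rev e : Fin N) : ℕ) * (v ^ fr N * crossP N v (a, b) (x, Fin.rev e)) := by
  have ha := Fin.val_rev a
  have he := Fin.val_rev e
  have hxl := x.isLt
  have hbl := b.isLt
  have hel := e.isLt
  have hal := a.isLt
  by_cases hc : (a : ℕ) + b + e = x + (N - 1) ∧ (b : ℕ) ≤ x
  · obtain ⟨n, hn⟩ : ∃ n, (x : ℕ) = b + n := ⟨x - b, by omega⟩
    rw [crossP_eq hv (a, b) (x, Fin.rev e) n (N - 1 - b) (N - 1 - x)
        (by show (a : ℕ) = ((Fin.rev e : Fin N) : ℕ) + n; omega)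
        (by show (x : ℕ) = b + n; omega)
        (by show (b : ℕ) + _ + 1 = N; omega)
        (by show (x : ℕ) + _ + 1 = N; omega),
      crossN_eq hv (b, e) (Fin.rev a, x) n (N - 1 - b) (N - 1 - x)
        (by show (e : ℕ) = ((Fin.rev a : Fin N) : ℕ) + n; omega)
        (by show (x : ℕ) = b + n; omega)
        (by show (b : ℕ) + _ + 1 = N; omega)
        (by show (x : ℕ) + _ + 1 = N; omega)]
    refine (formB hv.1 _ _ n _ _ _ _ _ _ _ _ _ _
      (by rw [show (a : ℕ) = ((Fin.rev e : Fin N) : ℕ) + n by omega, sgn_add_two])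
      (ex4 N a b e x n ((Fin.rev a : Fin N) : ℕ) ((Fin.rev e : Fin N) : ℕ) (fr N) _
        (by omega) (by omega) (by omega) (by omega) (two_fr hN) (tri n)).symm ?_).symm
    have e1 : N - 1 - ((Fin.rev e : Fin N) : ℕ) = e := by omega
    have e2 : N - 1 - (a : ℕ) = ((Fin.rev a : Fin N) : ℕ) := by omega
    have b1 : brf v ((Fin.rev a : Fin N) : ℕ) ≠ 0 := brf_ne hv (by omega)
    have b2 : brf v ((Fin.rev e : Fin N) : ℕ) ≠ 0 := brf_ne hv (by omega)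
    have b3 : brf v n ≠ 0 := brf_ne hv (by omega)
    have b4 : brf v (N - 1) ≠ 0 := brf_ne hv (by omega)
    have b5 : brf v (N - 1 - x) ≠ 0 := brf_ne hv (by omega)
    rw [e1, e2]
    field_simp
  · rw [crossP_zero _ _ (by
        show ¬((a : ℕ) + b = x + ((Fin.rev e : Fin N) : ℕ) ∧ ((Fin.rev e : Fin N) : ℕ) ≤ a)
        omega), crossN_zero _ _ (by
        show ¬((b : ℕ) + e = ((Fin.rev a : Fin N) : ℕ) + x ∧ ((Fin.rev a : Fin N) : ℕ) ≤ e)
        omega)]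
    simp

/-- slides -/
theorem s_okb : S_OKB := by
  intro N v hN hv
  refine ⟨fun a x y z => ?_, fun a x y z => ?_, fun a b e x => ?_, fun a b e x => ?_⟩
  · have h := id1 hN hv a x y z
    simp only [datJ, Fin.rev_rev, Matrix.smul_apply, smul_eq_mul]
    exact h
  · have h := id2 hN hv a x y z
    simp only [datJ, Fin.rev_rev, Matrix.smul_apply, smul_eq_mul]
    exact h
  · have h := id3 hN hv a b e x
    simp only [datJ, Matrix.smul_apply, smul_eq_mul]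
    exact h
  · have h := id4 hN hv a b e x
    simp only [datJ, Matrix.smul_apply, smul_eq_mul]
    exact h

end Pool.Agent.N81.VV
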